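import Pool.Agent.Lib.MP_7f581e_Z.Types.AllLie
import Pool.Agent.Lib.MP_7f581e_Z.Ort.Main
import Pool.Agent.Lib.MP_7f581e_Z.Alt3.Main
import Pool.Agent.Lib.MP_7f581e_Z.LieG.Main
import Pool.Agent.Lib.MP_7f581e_Z.LieG.Bridge
import Pool.Agent.Lib.MP_7f581e_Z.Alt.Plus
import Pool.Agent.Lib.MP_7f581e_ntE.Final
import Pool.Agent.Lib.MP_7f581e_ntE.Reach

/-!
# Final form of the theorem on composition factors
-/

universe u

namespace MP7Z

open MP7fR MP7fC MP7fE

/-- The alternating groups `A_n` with `n ≥ 5`, `n ≥ p`, `n ≠ 6`. -/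
def IsAlternating (p : ℕ) (S : Type) [Group S] : Prop :=
  ∃ n : ℕ, 5 ≤ n ∧ p ≤ n ∧ n ≠ 6 ∧ Nonempty (S ≃* alternatingGroup (Fin n))

/-- The groups of prime order, the linear, symplectic and unitary simple groups in
characteristic `p` (`IsClassical`), the orthogonal simple groups in characteristic `p`
(`IsOrthogonal`: dimension at least `7`, and not `PΩ₈⁺`), the simple groups of Lie type in
characteristic `p` (`OfLieType`: simple quotients of `{g ∈ H(𝔽_p) : Φ(g) = g}`, `H ≤ GL_n` a group
which is the Zariski closure of the image of a polynomial map, `Φ` a root of the Frobenius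
endomorphism), and the alternating groups above. -/
def IsSimpleFactor (p : ℕ) (S : Type) [Group S] : Prop :=
  (Nat.card S).Prime ∨ IsClassical p S ∨ IsOrthogonal p S ∨ OfLieType p S ∨ IsAlternating p S

/-- The class of the nonabelian factors. -/
def IsCAll (p : ℕ) (S : Type) [Group S] : Prop :=
  IsClassical p S ∨ IsOrthogonal p S ∨ OfLieType p S ∨ IsAlternating p S

theorem IsAlternating.isSimpleGroup {p : ℕ} {S : Type} [Group S] (h : IsAlternating p S) :
    IsSimpleGroup S := by
  obtain ⟨n, hn, -, -, ⟨e⟩⟩ := h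
  have h1 : IsSimpleGroup (alternatingGroup (Fin n)) :=
    alternatingGroup.isSimpleGroup (by
      rw [Nat.card_eq_fintype_card, Fintype.card_fin]
      exact hn)
  exact MulEquiv.isSimpleGroup e

theorem IsAlternating.congr {p : ℕ} {S T : Type} [Group S] [Group T] (e : S ≃* T)
    (h : IsAlternating p S) : IsAlternating p T := by
  obtain ⟨n, h1, h2, h3, ⟨e'⟩⟩ := h
  exact ⟨n, h1, h2, h3, ⟨e.symm.trans e'⟩⟩

theorem IsAlternating.isCAll {p : ℕ} {S : Type} [Group S] (h : IsAlternating p S) : IsCAll p S :=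
  Or.inr (Or.inr (Or.inr h))

theorem OfLieType.isCAll {p : ℕ} {S : Type} [Group S] (h : OfLieType p S) : IsCAll p S :=
  Or.inr (Or.inr (Or.inl h))

theorem IsCAll.isSimpleGroup {p : ℕ} {S : Type} [Group S] (h : IsCAll p S) : IsSimpleGroup S :=
  h.elim (fun h => h.1) fun h => h.elim (fun h => h.1) fun h =>
    h.elim (fun h => h.1) fun h => h.isSimpleGroup

theorem IsCAll.congr {p : ℕ} {S T : Type} [Group S] [Group T] (e : S ≃* T) (h : IsCAll p S) :
    IsCAll p T :=
  h.imp (fun h => h.congr e) fun h =>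
    h.imp (fun h => h.congr e) fun h => h.imp (fun h => h.congr e) fun h => h.congr e

theorem lieStep_alternating (p : ℕ) [Fact p.Prime] :
    LieStep p (fun S [Group S] => IsAlternating p S) := by
  intro Ω _ _ x G _ _ ψ hψ E _ _ f hf S _ _ κ _ hS hθ hmin
  obtain ⟨n, h1, h2, h3, he⟩ := hS
  exact alt_all p n h1 h2 h3 Ω x G ψ hψ E f hf S κ he hθ hmin

theorem lieStep_all (p : ℕ) [Fact p.Prime] : LieStep p (fun S [Group S] => IsCAll p S) := by
  intro Ω _ _ x G _ _ ψ hψ E _ _ f hf S _ _ κ _ hS hθ hmin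
  rcases hS with hS | hS | hS | hS
  · exact lieStep_classical p Ω x G ψ hψ E f hf S κ hS hθ hmin
  · exact lieStep_orthogonal p Ω x G ψ hψ E f hf S κ hS hθ hmin
  · exact lieStep_lieType p Ω x G ψ hψ E f hf S κ hS.isLieType hθ hmin
  · exact lieStep_alternating p Ω x G ψ hψ E f hf S κ hS hθ hmin

/-- Every finite group with composition factors in the list occurs regularly over `𝔽_p`. -/
theorem occursRegularly_prime (p : ℕ) [Fact p.Prime] (G : Type) [Group G] [Finite G]
    (hG : HasFactors (IsSimpleFactor p) G) : OccursRegularly G (ZMod p) := by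
  obtain ⟨Ω, _, _, x, ψ, hψ⟩ := final p (ep_lStep p) (ep_pStep p) (fun S [Group S] => IsCAll p S)
    (fun S _ h => IsCAll.isSimpleGroup h) (fun S T _ _ e h => IsCAll.congr e h)
    (lieStep_all p) G hG
  exact reg Ω x G ψ hψ

/-- **Final form.** -/
theorem final_form (p : ℕ) [Fact p.Prime] (G : Type) [Group G] [Finite G] (N : Subgroup G)
    [N.Normal] (hN : HasFactors (IsFactor p (ZMod p)) N)
    (hG : HasFactors (IsSimpleFactor p) (G ⧸ N)) :
    Occurs G (RatFunc (ZMod p)) ∧ (∀ (K : Type u) [Field K] [CharP K p], OccursRegularly G K) ∧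
      ∀ (K : Type u) [Field K] [CharP K p], IsHilbertian K → Occurs G K := by
  have h0 : OccursRegularly (G ⧸ N) (ZMod p) := occursRegularly_prime p (G ⧸ N) hG
  have hN' : HasFactors (IsFactor p (ZMod p)) (QuotientGroup.mk' N).ker := by
    rw [QuotientGroup.ker_mk']
    exact hN
  have h1 : Reach (ZMod p) (IsFactor p (ZMod p)) (IsQuasiClassical p) G :=
    Reach.ext (QuotientGroup.mk' N) (QuotientGroup.mk'_surjective N) hN' (Reach.base h0)
  have h2 := good_factor.reach_regular (p := p) goodSplit_quasiClassical h1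
  have h3 := good_factor.reach_regular.{u} (p := p) goodSplit_quasiClassical h1
  refine ⟨(h2.1 (ZMod p)).occurs, fun K _ _ => ?_, fun K _ _ hK => ?_⟩
  · let _ : Algebra (ZMod p) K := ZMod.algebra K p
    exact h3.1 K
  · let _ : Algebra (ZMod p) K := ZMod.algebra K p
    exact h3.2 K hK

end MP7Z
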