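import Pool.Agent.Lib.MP_7f581e_Z.InterfaceFF
import Pool.Agent.Lib.MP_7f581e_ntC.Factors
import Pool.Agent.Lib.MP_7f581e_ntR.Defs

/-!
# Interface: realizations with the invariant (S), and the steps (homomorphism language)

`Ω` is a field of characteristic `p` (an algebra over `ZMod p`), in the application a separable
closure of `𝔽_p(x)`.  All Galois groups are subgroups of `Ω ≃ₐ[ZMod p] Ω`; a realization of `G` is a
homomorphism `ψ : Gx p x →* G` of finite level.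
-/

namespace MP7Z

/-- `Ω` is a separable closure of the rational function field `𝔽_p(x)`. -/
structure IsStage (p : ℕ) [Fact p.Prime] {Ω : Type} [Field Ω] [Algebra (ZMod p) Ω] (x : Ω) :
    Prop where
  sepClosed : IsSepClosed Ω
  transc : Transcendental (ZMod p) x
  sep : Algebra.IsSeparable (IntermediateField.adjoin (ZMod p) {x}) Ω

section

variable {p : ℕ} [Fact p.Prime] {Ω : Type} [Field Ω] [Algebra (ZMod p) Ω]

/-- The constants: the algebraic closure of `𝔽_p` in `Ω`. -/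
noncomputable abbrev Cst (p : ℕ) [Fact p.Prime] (Ω : Type) [Field Ω] [Algebra (ZMod p) Ω] :
    IntermediateField (ZMod p) Ω := algebraicClosure (ZMod p) Ω

/-- The automorphisms of `Ω` which fix all elements of the set `A`. -/
def Fx (p : ℕ) [Fact p.Prime] {Ω : Type} [Field Ω] [Algebra (ZMod p) Ω] (A : Set Ω) :
    Subgroup (Ω ≃ₐ[ZMod p] Ω) where
  carrier := {γ | ∀ a ∈ A, γ a = a}
  mul_mem' := by
    intro a b ha hb c hc
    change a (b c) = c
    rw [hb c hc, ha c hc]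
  one_mem' := fun _ _ => rfl
  inv_mem' := by
    intro a ha c hc
    change a.symm c = c
    rw [AlgEquiv.symm_apply_eq]
    exact (ha c hc).symm

theorem mem_Fx {A : Set Ω} {γ : Ω ≃ₐ[ZMod p] Ω} : γ ∈ Fx p A ↔ ∀ a ∈ A, γ a = a := Iff.rfl

/-- The absolute Galois group of `𝔽_p(x)`. -/
abbrev Gx (p : ℕ) [Fact p.Prime] {Ω : Type} [Field Ω] [Algebra (ZMod p) Ω] (x : Ω) :
    Subgroup (Ω ≃ₐ[ZMod p] Ω) := Fx p {x}

theorem mem_Gx {x : Ω} {γ : Ω ≃ₐ[ZMod p] Ω} : γ ∈ Gx p x ↔ γ x = x := by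
  rw [mem_Fx]
  simp

/-- A homomorphism from a group of automorphisms of `Ω` is of *finite level* if it kills all
elements fixing a certain finite subset of `Ω` (continuity for the Krull topology). -/
def FinLevel {H : Subgroup (Ω ≃ₐ[ZMod p] Ω)} {G : Type} [Group G] (ψ : H →* G) : Prop :=
  ∃ S : Finset Ω, ∀ γ : H, (∀ s ∈ S, (γ : Ω ≃ₐ[ZMod p] Ω) s = s) → ψ γ = 1

/-- The decomposition group of `V` in the group of all automorphisms of `Ω`. -/
def Dec (p : ℕ) [Fact p.Prime] {Ω : Type} [Field Ω] [Algebra (ZMod p) Ω]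
    (V : ValuationSubring Ω) : Subgroup (Ω ≃ₐ[ZMod p] Ω) where
  carrier := {γ | ∀ f, γ f ∈ V ↔ f ∈ V}
  mul_mem' := by
    intro a b ha hb f
    exact (ha (b f)).trans (hb f)
  one_mem' := fun _ => Iff.rfl
  inv_mem' := by
    intro a ha f
    rw [← ha (a⁻¹ f)]
    have h : a (a⁻¹ f) = f := a.apply_symm_apply f
    rw [h]

/-- The inertia group at `V`: automorphisms which fix the constants and preserve `V`. -/
def Inert (p : ℕ) [Fact p.Prime] {Ω : Type} [Field Ω] [Algebra (ZMod p) Ω]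
    (V : ValuationSubring Ω) : Subgroup (Ω ≃ₐ[ZMod p] Ω) :=
  Fx p (Cst p Ω : Set Ω) ⊓ Dec p V

/-- `V` is `ℓ`-bad for `x`: a zero of `x`, or the residue of `x` is a root of unity of order prime
to `ℓ`. -/
def BadV (ℓ : ℕ) (x : Ω) (V : ValuationSubring Ω) : Prop :=
  V.valuation x < 1 ∨ ∃ m : ℕ, 0 < m ∧ m.Coprime ℓ ∧ V.valuation (x ^ m - 1) < 1

/-- **The invariant (S).**  For every prime `ℓ ≠ p` and every `ℓ`-bad place `V` the image of the
inertia group at `V` has order prime to `ℓ`. -/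
def SInv (p : ℕ) [Fact p.Prime] {Ω : Type} [Field Ω] [Algebra (ZMod p) Ω] (x : Ω) {G : Type}
    [Group G] (ψ : Gx p x →* G) : Prop :=
  ∀ ℓ : ℕ, ℓ.Prime → ℓ ≠ p → ∀ V : ValuationSubring Ω, V ≠ ⊤ → BadV ℓ x V →
    ∀ γ : Gx p x, (γ : Ω ≃ₐ[ZMod p] Ω) ∈ Inert p V → ¬ ℓ ∣ orderOf (ψ γ)

/-- The realizations we work with: homomorphisms from the absolute Galois group of `𝔽_p(x)` of
finite level, which map the geometric Galois group onto `G`, with the invariant (S). -/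
structure GoodR (p : ℕ) [Fact p.Prime] {Ω : Type} [Field Ω] [Algebra (ZMod p) Ω] (x : Ω)
    {G : Type} [Group G] (ψ : Gx p x →* G) : Prop where
  stage : IsStage p x
  fin : FinLevel ψ
  reg : ∀ g : G, ∃ γ : Gx p x, (γ : Ω ≃ₐ[ZMod p] Ω) ∈ Fx p (Cst p Ω : Set Ω) ∧ ψ γ = g
  inv : SInv p x ψ

end

/-- **Step `ℓ ≠ p`**: kernel a minimal normal subgroup which is an elementary abelian `ℓ`-group;
the base is changed from `𝔽_p(x)` to `𝔽_p(x')`, `x' ^ n = x`, `p ∤ n`. -/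
def LStep (p : ℕ) [Fact p.Prime] : Prop :=
  ∀ (Ω : Type) [Field Ω] [Algebra (ZMod p) Ω] (x : Ω) (G : Type) [Group G] [Finite G]
    (ψ : Gx p x →* G), GoodR p x ψ →
  ∀ (E : Type) [Group E] [Finite E] (f : E →* G), Function.Surjective f →
  ∀ (ℓ : ℕ), ℓ.Prime → ℓ ≠ p → (∀ a ∈ f.ker, a ^ ℓ = 1) →
    (∀ a ∈ f.ker, ∀ b ∈ f.ker, a * b = b * a) →
    (∀ N : Subgroup E, N.Normal → N ≤ f.ker → N = ⊥ ∨ N = f.ker) →
  ∃ (x' : Ω) (n : ℕ), n.Coprime p ∧ x' ^ n = x ∧ ∃ ψ' : Gx p x' →* E, GoodR p x' ψ' ∧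
    ∀ (γ : Ω ≃ₐ[ZMod p] Ω) (h' : γ ∈ Gx p x') (h : γ ∈ Gx p x), f (ψ' ⟨γ, h'⟩) = ψ ⟨γ, h⟩

/-- **Step `p`**: kernel a minimal normal subgroup which is an elementary abelian `p`-group. -/
def PStep (p : ℕ) [Fact p.Prime] : Prop :=
  ∀ (Ω : Type) [Field Ω] [Algebra (ZMod p) Ω] (x : Ω) (G : Type) [Group G] [Finite G]
    (ψ : Gx p x →* G), GoodR p x ψ →
  ∀ (E : Type) [Group E] [Finite E] (f : E →* G), Function.Surjective f →
    (∀ a ∈ f.ker, a ^ p = 1) → (∀ a ∈ f.ker, ∀ b ∈ f.ker, a * b = b * a) →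
    (∀ N : Subgroup E, N.Normal → N ≤ f.ker → N = ⊥ ∨ N = f.ker) →
  ∃ ψ' : Gx p x →* E, GoodR p x ψ' ∧ ∀ γ : Gx p x, f (ψ' γ) = ψ γ

/-- **Step Lie**, for a class `𝒮` of nonabelian simple groups: kernel a power of a group in `𝒮`
(and a minimal normal subgroup).  (The solution does not have to extend the given one.) -/
def LieStep (p : ℕ) [Fact p.Prime] (𝒮 : (S : Type) → [Group S] → Prop) : Prop :=
  ∀ (Ω : Type) [Field Ω] [Algebra (ZMod p) Ω] (x : Ω) (G : Type) [Group G] [Finite G]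
    (ψ : Gx p x →* G), GoodR p x ψ →
  ∀ (E : Type) [Group E] [Finite E] (f : E →* G), Function.Surjective f →
  ∀ (S : Type) [Group S] [Finite S] (κ : Type) [Finite κ], 𝒮 S → Nonempty (f.ker ≃* (κ → S)) →
    (∀ N : Subgroup E, N.Normal → N ≤ f.ker → N = ⊥ ∨ N = f.ker) →
  ∃ (x' : Ω) (ψ' : Gx p x' →* E), GoodR p x' ψ'

/-- **Final assembly, group theory.** (`HasFactors`: subnormal series with factors in the class.) -/
def FinalStmt (p : ℕ) [Fact p.Prime] : Prop :=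
  LStep p → PStep p → ∀ (𝒮 : (S : Type) → [Group S] → Prop),
    (∀ (S : Type) [Group S], 𝒮 S → IsSimpleGroup S) →
    (∀ (S T : Type) [Group S] [Group T], (S ≃* T) → 𝒮 S → 𝒮 T) → LieStep p 𝒮 →
    ∀ (G : Type) [Group G] [Finite G],
      MP7fC.HasFactors (fun S [Group S] => (Nat.card S).Prime ∨ 𝒮 S) G →
      ∃ (Ω : Type) (_ : Field Ω) (_ : Algebra (ZMod p) Ω) (x : Ω) (ψ : Gx p x →* G), GoodR p x ψ

/-- **Final assembly, fields.** -/
def RegStmt (p : ℕ) [Fact p.Prime] : Prop :=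
  ∀ (Ω : Type) [Field Ω] [Algebra (ZMod p) Ω] (x : Ω) (G : Type) [Group G] [Finite G]
    (ψ : Gx p x →* G), GoodR p x ψ → MP7fR.OccursRegularly G (ZMod p)

end MP7Z
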