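import Pool.Agent.Lib.MP_7f581e_Z.Crv.Frob

/-!
# Interface of package FF (function fields)

Language: `𝕜` algebraically closed field of characteristic `p` (in the application the algebraic
closure of `𝔽_p`), `E` the function field of a curve over `𝕜` (`IsCurveField 𝕜 E`), places of `E`
are normalized discrete valuations trivial on `𝕜` (`Place 𝕜 E`), all of degree one.
A function field over `𝔽_q` is given by its constant field extension `E` to `𝕜` together with the
Frobenius automorphism `φ` of `E` (`IsFrob 𝕜 q φ`): its elements are the `f` with `φ f = f`, its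
places are the `φ`-orbits of places of `E`, the degree of the place is `orbLen φ v`, its constants
field extension of degree `M` belongs to `φ ^ M`.
-/

namespace MP7Z

/-- **Riemann.**  `g` is the genus.  (Finite dimensionality included.) -/
def RiemannStmt : Prop :=
  ∀ (𝕜 E : Type) [Field 𝕜] [IsAlgClosed 𝕜] [Field E] [Algebra 𝕜 E] [IsCurveField 𝕜 E] (x : E),
    Transcendental 𝕜 x → Algebra.IsSeparable (IntermediateField.adjoin 𝕜 {x}) E →
    (∀ D : Place 𝕜 E →₀ ℤ, Module.Finite 𝕜 (Lsp (D : Place 𝕜 E → ℤ))) ∧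
    (∀ f : E, f ≠ 0 → ∀ D : Place 𝕜 E →₀ ℤ, (∀ v, D v = v.pord f) → D.sum (fun _ n => n) = 0) ∧
    ∃ (g : ℕ) (N : ℤ), ∀ D : Place 𝕜 E →₀ ℤ, N ≤ D.sum (fun _ n => n) →
      (Module.finrank 𝕜 (Lsp (D : Place 𝕜 E → ℤ)) : ℤ) = D.sum (fun _ n => n) + 1 - g

/-- **(HN)** The Hasse norm theorem for constant field extensions: an element of the fixed field
of `φ` which is locally everywhere a norm from the constant field extension of degree `M` is a norm
from it.  (The local condition at the place below `v`, of degree `d = orbLen φ v`, is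
`M / gcd(M, d) ∣ v(f)`, that is, `M ∣ d * v(f)`.) -/
def HNStmt : Prop :=
  ∀ (𝕜 E : Type) [Field 𝕜] [IsAlgClosed 𝕜] [Field E] [Algebra 𝕜 E] [IsCurveField 𝕜 E]
    (q : ℕ) (φ : E ≃+* E), IsFrob 𝕜 q φ →
    ∀ (M : ℕ), 0 < M → ∀ f : E, f ≠ 0 → φ f = f →
      (∀ v : Place 𝕜 E, (M : ℤ) ∣ (orbLen φ v : ℤ) * v.pord f) →
      ∃ t : E, (φ ^ M) t = t ∧ ∏ i ∈ Finset.range M, (φ ^ i) t = f

/-- **(P')** Prescribed orders modulo `ℓ` at all the `ℓ`-bad places and at finitely many other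
places, for an element of the fixed field of `φ`.  `x` is an element of the fixed field, `ζ` a
primitive `ℓ`-th root of unity in the fixed field, and `σ` an automorphism of the fixed field with
`σ x = ζ x`. -/
def PStmt : Prop :=
  ∀ (𝕜 E : Type) [Field 𝕜] [IsAlgClosed 𝕜] [Field E] [Algebra 𝕜 E] [IsCurveField 𝕜 E]
    (q : ℕ) (φ : E ≃+* E), IsFrob 𝕜 q φ →
    ∀ (ℓ : ℕ), ℓ.Prime → (ℓ : 𝕜) ≠ 0 → ∀ (ζ : 𝕜), IsPrimitiveRoot ζ ℓ → ζ ^ q = ζ →
    ∀ (x : E), Transcendental 𝕜 x → φ x = x →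
    ∀ (σ : E ≃ₐ[𝕜] E), (∀ f, σ (φ f) = φ (σ f)) → σ x = algebraMap 𝕜 E ζ * x →
    ∀ (T : Set (Place 𝕜 E)), T.Finite →
    ∀ (D : Place 𝕜 E → ℤ), (∀ v : Place 𝕜 E, D (v.comap φ) = D v) →
      {v | D v ≠ 0}.Finite →
      ∃ y : E, y ≠ 0 ∧ φ y = y ∧
        ∀ v : Place 𝕜 E, v ∈ T ∨ Bad ℓ x v → (ℓ : ℤ) ∣ v.pord y - D v

/-- **Tsen**, in the form used: norms of separable extensions of function fields of curves over an
algebraically closed field are surjective. -/
def TsenStmt : Prop :=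
  ∀ (𝕜 k E : Type) [Field 𝕜] [IsAlgClosed 𝕜] [Field k] [Field E] [Algebra 𝕜 k] [Algebra 𝕜 E]
    [Algebra k E] [IsScalarTower 𝕜 k E] [IsCurveField 𝕜 k] [IsCurveField 𝕜 E]
    [Module.Finite k E] (x : k), Transcendental 𝕜 x →
    Algebra.IsSeparable (IntermediateField.adjoin 𝕜 {x}) k → Algebra.IsSeparable k E →
    ∀ f : k, ∃ t : E, Algebra.norm k t = f

end MP7Z
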